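import Mathlib
import Pool.Agent.Parafree.Defs
import Pool.Agent.Parafree.Detect
import Pool.Agent.Parafree.LowerCentral
import Pool.Agent.Parafree.QTwo

set_option autoImplicit false

namespace Pool.Agent.Results.MP_66ce2c_al.RootsQ2

open Pool.Agent.Parafree

/-- There is a finitely generated parafree group `P` with a normal subgroup `N` such that `P/N` is
infinite cyclic and `N/γ_2(N)` and `P/N` are torsion-free, while `P/γ_2(N)` is not a
`𝒰`-group. -/
theorem result : ∃ (P : Type) (_ : Group P) (N : Subgroup P) (_ : N.Normal),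
    IsParafree P ∧ Group.FG P ∧ Nonempty ((P ⧸ N) ≃* Multiplicative ℤ) ∧
      TorsionFree (Abelianization N) ∧ TorsionFree (P ⧸ N) ∧ ¬ IsUGroup (P ⧸ ⁅N, N⁆) := by
  refine ⟨P, inferInstance, Two.N, inferInstance,
    ⟨iInf_lowerCentralSeries, Fin 3, fun n => ⟨equivQ n⟩⟩, ?_, ?_, Two.ab_torsionFree,
    Two.quotient_torsionFree, ?_⟩
  · exact Group.fg_iff.2 ⟨_, closure_eq_top, by simp⟩
  · refine ⟨QuotientGroup.quotientKerEquivOfSurjective
      (SemidirectProduct.rightHom.comp Two.Φ) ?_⟩
    intro z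
    exact ⟨px ^ (Multiplicative.toAdd z), Two.right_zpow _⟩
  · intro h
    obtain ⟨x, y, hxy, hne⟩ := Two.not_unique_roots
    exact hne (h x y 2 (by norm_num) hxy)

end Pool.Agent.Results.MP_66ce2c_al.RootsQ2
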