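import Mathlib
import Pool.Agent.Parafree.Defs
import Pool.Agent.Parafree.Detect
import Pool.Agent.Parafree.LowerCentral
import Pool.Agent.Parafree.QOne

set_option autoImplicit false

namespace Pool.Agent.Results.MP_66ce2c_al.TorsionQ1

open Pool.Agent.Parafree

/-- There is a finitely generated parafree group `P` with a normal subgroup `N` of index six such
that `N/γ_2(N)` is torsion-free while `P/γ_2(N)` is not torsion-free. -/
theorem result : ∃ (P : Type) (_ : Group P) (N : Subgroup P) (_ : N.Normal),
    IsParafree P ∧ Group.FG P ∧ N.index = 6 ∧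
      TorsionFree (Abelianization N) ∧ ¬ TorsionFree (P ⧸ ⁅N, N⁆) := by
  refine ⟨P, inferInstance, One.N, inferInstance,
    ⟨iInf_lowerCentralSeries, Fin 3, fun n => ⟨equivQ n⟩⟩, ?_, One.N_index, One.ab_torsionFree, ?_⟩
  · exact Group.fg_iff.2 ⟨_, closure_eq_top, by simp⟩
  · intro h
    obtain ⟨g, hg, hg1⟩ := One.quotient_torsion
    exact hg1 (h g hg)

end Pool.Agent.Results.MP_66ce2c_al.TorsionQ1
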